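import Mathlib

/-!
Data structures for bounded-length reachability in the cell-probe model: definitions.
-/

namespace Pool.Agent.J4H85.KR

/-- Query algorithms which read cells `i : I` of a memory adaptively and return an element of `R`:
`ask i f` reads the cell `i` and continues with `f v`, if `v` is the contents of the cell. -/
inductive Alg (I R : Type) : Type
  | ret : R → Alg I R
  | ask : I → (ℕ → Alg I R) → Alg I R

/-- The result of the algorithm on the memory `m`. -/
def Alg.eval {I R : Type} (m : I → ℕ) : Alg I R → R
  | .ret a => a
  | .ask i f => (f (m i)).eval m

/-- The number of cells which the algorithm reads on the memory `m`. -/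
def Alg.cost {I R : Type} (m : I → ℕ) : Alg I R → ℕ
  | .ret _ => 0
  | .ask i f => (f (m i)).cost m + 1

/-- There is a directed path from `u` to `v` with at most `k` edges. -/
def Within {n : ℕ} (G : Fin n → Fin n → Prop) : ℕ → Fin n → Fin n → Prop
  | 0, u, v => u = v
  | k + 1, u, v => u = v ∨ ∃ x, G u x ∧ Within G k x v

open Classical in
/-- The number of edges. -/
noncomputable def edges {n : ℕ} (G : Fin n → Fin n → Prop) : ℕ :=
  (Finset.univ.filter (fun e : Fin n × Fin n => G e.1 e.2)).card

/-- A data structure for directed graphs with `n` vertices: a memory of `S` cells of `w` bits, which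
may depend on the graph in any way, and for each pair of vertices a query algorithm. -/
structure Oracle (n S w : ℕ) where
  store : (Fin n → Fin n → Prop) → Fin S → ℕ
  small : ∀ G i, store G i < 2 ^ w
  query : Fin n → Fin n → Alg (Fin S) Bool

/-- For all directed graphs with `n` vertices and at most `c n` edges and all vertices `u`, `v`, the
query is answered correctly (is there a path from `u` to `v` with at most `k` edges?), and at most
`T` cells are read. -/
def Oracle.Solves {n S w : ℕ} (D : Oracle n S w) (k c T : ℕ) : Prop :=
  ∀ G : Fin n → Fin n → Prop, edges G ≤ c * n → ∀ u v : Fin n,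
    ((D.query u v).eval (D.store G) = true ↔ Within G k u v) ∧
    (D.query u v).cost (D.store G) ≤ T

end Pool.Agent.J4H85.KR
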