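import Mathlib
import Pool.Agent.J4H85.KR.Defs

namespace Pool.Agent.J4H85.KR

open Finset

def Alg.bind {I R R' : Type} : Alg I R → (R → Alg I R') → Alg I R'
  | .ret a, g => g a
  | .ask i f, g => .ask i (fun v => (f v).bind g)

def Alg.lift {I J R : Type} (e : I → J) : Alg I R → Alg J R
  | .ret a => .ret a
  | .ask i f => .ask (e i) (fun v => (f v).lift e)

/-- is one of the results for `i < N` true? -/
def Alg.any {I : Type} (f : ℕ → Alg I Bool) : ℕ → Alg I Bool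
  | 0 => .ret false
  | N + 1 => (Alg.any f N).bind (fun b => if b = true then .ret true else f N)

open Classical in
noncomputable def outd {n : ℕ} (E : Fin n → Fin n → Prop) (a : Fin n) : ℕ :=
  (univ.filter (fun x => E a x)).card

open Classical in
noncomputable def ind {n : ℕ} (E : Fin n → Fin n → Prop) (b : Fin n) : ℕ :=
  (univ.filter (fun x => E x b)).card

/-- CMB: the combinators -/
def S_CMB : Prop :=
  (∀ (I R R' : Type) (p : Alg I R) (g : R → Alg I R') (m : I → ℕ),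
    (p.bind g).eval m = (g (p.eval m)).eval m ∧
    (p.bind g).cost m = p.cost m + (g (p.eval m)).cost m) ∧
  (∀ (I J R : Type) (e : I → J) (p : Alg I R) (m : J → ℕ),
    (p.lift e).eval m = p.eval (fun i => m (e i)) ∧
    (p.lift e).cost m = p.cost (fun i => m (e i))) ∧
  ∀ (I : Type) (f : ℕ → Alg I Bool) (m : I → ℕ) (N K : ℕ), (∀ i < N, (f i).cost m ≤ K) →
    ((Alg.any f N).eval m = true ↔ ∃ i < N, (f i).eval m = true) ∧ (Alg.any f N).cost m ≤ N * K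

/-- DIC: dictionary by binary search -/
def S_DIC : Prop := ∀ M N : ℕ, ∃ Q : ℕ → Alg (Fin M) Bool, ∀ K : Finset ℕ, (∀ y ∈ K, y < N) →
  K.card ≤ M → ∃ mem : Fin M → ℕ, (∀ i, mem i ≤ N) ∧ ∀ y < N,
    ((Q y).eval mem = true ↔ y ∈ K) ∧ (Q y).cost mem ≤ Nat.log 2 M + 1

/-- HTB: table for pairs of marked vertices -/
def S_HTB : Prop := ∀ n p q : ℕ,
  ∃ Q : Fin n → Fin n → Alg (Fin n ⊕ Fin n ⊕ (Fin p × Fin q)) (Option Bool),
  ∀ (P P' : Finset (Fin n)) (B : Fin n → Fin n → Prop), P.card ≤ p → P'.card ≤ q →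
  ∃ mem : Fin n ⊕ Fin n ⊕ (Fin p × Fin q) → ℕ, (∀ i, mem i ≤ n + 1) ∧ ∀ a b,
    (Q a b).cost mem ≤ 3 ∧
    ((a ∈ P ∧ b ∈ P') → ((Q a b).eval mem = some true ∨ (Q a b).eval mem = some false) ∧
      ((Q a b).eval mem = some true ↔ B a b)) ∧
    (¬ (a ∈ P ∧ b ∈ P') → (Q a b).eval mem = none)

/-- ENU: the first `T` neighbours -/
def S_ENU : Prop := ∀ (n T : ℕ) (E : Fin n → Fin n → Prop), ∃ mem : Fin n × Fin T → ℕ,
  (∀ z, mem z ≤ n) ∧ (∀ a i (x : Fin n), mem (a, i) = x → E a x) ∧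
  ∀ a t, t ≤ T → outd E a ≤ t → ∀ x, E a x → ∃ i : Fin T, (i : ℕ) < t ∧ mem (a, i) = x

/-- CNT -/
def S_CNT : Prop := ∀ (n M t : ℕ) (E : Fin n → Fin n → Prop), edges E ≤ M →
  (univ.filter (fun a => t < outd E a)).card * (t + 1) ≤ M ∧
  (univ.filter (fun b => t < ind E b)).card * (t + 1) ≤ M ∧
  ∀ K : Finset (Fin n × Fin n),
    (∀ z, z ∈ K ↔ ∃ x, ind E x ≤ t ∧ E z.1 x ∧ E x z.2) → K.card ≤ t * M

/-- WIT: paths with at most three edges -/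
def S_WIT : Prop := ∀ (n : ℕ) (G : Fin n → Fin n → Prop) (u v : Fin n),
  (Within G 3 u v ↔ ∃ x y, (u = x ∨ G u x) ∧ (x = y ∨ G x y) ∧ (y = v ∨ G y v)) ∧
  edges (fun a b => a = b ∨ G a b) ≤ edges G + n

/-- STR: the data structure -/
def S_STR : Prop := ∀ c : ℕ, ∃ C : ℕ, 1 ≤ C ∧ ∀ n r : ℕ, 2 ≤ n → 1 ≤ r → r ^ 6 ≤ n →
  ∃ (S w : ℕ) (D : Oracle n S w), D.Solves 3 c (C * (r ^ 2 * Nat.log 2 n)) ∧
    w ≤ C * Nat.log 2 n ∧ S * r ^ 3 ≤ C * n ^ 2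

/-- FIN: the bound of the question fails for `k = 3` -/
def S_FIN : Prop := ∀ c : ℕ, ∃ C : ℕ, ∀ (δ : ℝ) (a : ℕ), 0 < δ → ∃ n₀ : ℕ, ∀ n : ℕ, n₀ ≤ n →
  ∃ (S w T : ℕ) (D : Oracle n S w), D.Solves 3 c T ∧ w ≤ C * Nat.log 2 n ∧ 1 ≤ T ∧
    (T : ℝ) ≤ (n : ℝ) ^ δ ∧ (S : ℝ) * T < (n : ℝ) ^ 2 / (Real.log n) ^ a

end Pool.Agent.J4H85.KR
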